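import Pool.Agent.Helper64.RFn.GoalsF

/-! MP_c98eff_gt, project RFn part F, packet DETn: facts about the determinant. -/

open MeasureTheory Set

open scoped RealInnerProductSpace

namespace Pool.Agent.Helper71.RFn.DETn

open Pool.Agent.Helper64.RFn

variable {m : ℕ}

lemma det_bd (A : V m →L[ℝ] V m) (r : ℝ) (hr : 0 ≤ r) (h : ∀ v, ‖A v‖ ≤ r * ‖v‖) :
    |A.det| ≤ r ^ m := by
  have h1 : (A '' Metric.ball (0 : V m) 1) ⊆ Metric.closedBall 0 r := by
    rintro _ ⟨v, hv, rfl⟩
    rw [mem_ball_zero_iff] at hv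
    rw [mem_closedBall_zero_iff]
    refine (h v).trans ?_
    nlinarith [norm_nonneg v]
  have h2 := measure_mono (μ := (volume : Measure (V m))) h1
  rw [Measure.addHaar_image_continuousLinearMap, Measure.addHaar_closedBall _ _ hr,
    finrank_euclideanSpace_fin] at h2
  have h3 : (volume : Measure (V m)) (Metric.ball 0 1) ≠ 0 :=
    (Metric.measure_ball_pos _ _ one_pos).ne'
  have h4 : (volume : Measure (V m)) (Metric.ball 0 1) ≠ ⊤ := measure_ball_lt_top.ne
  have h5 := (ENNReal.mul_le_mul_iff_left h3 h4).1 h2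
  exact (ENNReal.ofReal_le_ofReal_iff (by positivity)).1 h5

lemma det_comp' (A B : V m →L[ℝ] V m) : (A.comp B).det = A.det * B.det := by
  show LinearMap.det ((A : V m →ₗ[ℝ] V m) ∘ₗ (B : V m →ₗ[ℝ] V m)) = _
  rw [LinearMap.det_comp]

lemma adj_comp_self {P : V m →L[ℝ] V m} (h : ∀ a b, ⟪P a, P b⟫ = ⟪a, b⟫) :
    (ContinuousLinearMap.adjoint P).comp P = ContinuousLinearMap.id ℝ (V m) := by
  ext1 a
  apply ext_inner_right ℝ
  intro b
  rw [ContinuousLinearMap.comp_apply, ContinuousLinearMap.adjoint_inner_left, h,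
    ContinuousLinearMap.id_apply]

lemma det_adj {P : V m →L[ℝ] V m} (h : ∀ a b, ⟪P a, P b⟫ = ⟪a, b⟫) :
    |(ContinuousLinearMap.adjoint P : V m →L[ℝ] V m).det| = 1 := by
  have hn : ∀ v, ‖P v‖ = ‖v‖ := by
    intro v
    have h1 : ‖P v‖ ^ 2 = ‖v‖ ^ 2 := by
      rw [← real_inner_self_eq_norm_sq, ← real_inner_self_eq_norm_sq, h]
    exact (pow_left_inj₀ (norm_nonneg _) (norm_nonneg _) two_ne_zero).1 h1
  have h1 : |P.det| ≤ 1 := by
    have := det_bd P 1 zero_le_one (fun v => by rw [one_mul, hn])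
    rwa [one_pow] at this
  have hP : ‖P‖ ≤ 1 := P.opNorm_le_bound zero_le_one (fun v => by rw [one_mul, hn])
  have h2 : |(ContinuousLinearMap.adjoint P : V m →L[ℝ] V m).det| ≤ 1 := by
    have := det_bd (ContinuousLinearMap.adjoint P) 1 zero_le_one (fun v => by
      refine (ContinuousLinearMap.le_opNorm _ v).trans ?_
      apply mul_le_mul_of_nonneg_right _ (norm_nonneg _)
      simpa using hP)
    rwa [one_pow] at this
  have h3 : (ContinuousLinearMap.adjoint P : V m →L[ℝ] V m).det * P.det = 1 := by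
    rw [← det_comp', adj_comp_self h]
    show LinearMap.det (LinearMap.id : V m →ₗ[ℝ] V m) = 1
    exact LinearMap.det_id
  have h4 : |(ContinuousLinearMap.adjoint P : V m →L[ℝ] V m).det| * |P.det| = 1 := by
    rw [← abs_mul, h3, abs_one]
  nlinarith [abs_nonneg P.det, abs_nonneg (ContinuousLinearMap.adjoint P : V m →L[ℝ] V m).det]

theorem detn : Pool.Agent.Helper64.RFn.DETn := by
  intro m
  refine ⟨?_, ?_, ?_, ?_⟩
  · intro L μ hμ
    have hc : IsCompact (Metric.closedBall (0 : V m →L[ℝ] V m) (L + 1)) := isCompact_closedBall _ _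
    have hu := hc.uniformContinuousOn_of_continuous
      (ContinuousLinearMap.continuous_det (𝕜 := ℝ) (E := V m)).continuousOn
    rw [Metric.uniformContinuousOn_iff] at hu
    obtain ⟨δ, hδ, hh⟩ := hu μ hμ
    refine ⟨min (δ / 2) 1, by positivity, fun A A' hA hd => ?_⟩
    have h1 : ‖A' - A‖ ≤ min (δ / 2) 1 :=
      ContinuousLinearMap.opNorm_le_bound _ (by positivity) (fun v => hd v)
    have h2 : A ∈ Metric.closedBall (0 : V m →L[ℝ] V m) (L + 1) := by
      rw [mem_closedBall_zero_iff]; linarith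
    have h3 : A' ∈ Metric.closedBall (0 : V m →L[ℝ] V m) (L + 1) := by
      rw [mem_closedBall_zero_iff]
      have := norm_add_le A (A' - A)
      rw [add_sub_cancel] at this
      have h4 := min_le_right (δ / 2) 1
      linarith
    have h5 := hh A' h3 A h2 (by
      rw [dist_eq_norm]
      have h4 := min_le_left (δ / 2) 1
      linarith)
    rw [Real.dist_eq] at h5
    exact h5.le
  · intro P A h
    rw [det_comp', abs_mul, det_adj h, one_mul]
  · intro A L hL h
    apply det_bd A _ (Real.sqrt_nonneg L)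
    intro v
    apply (pow_le_pow_iff_left₀ (norm_nonneg _) (by positivity) two_ne_zero).1
    rw [mul_pow, Real.sq_sqrt hL]
    exact h v
  · intro A l hl h
    have hinj : Function.Injective (A : V m →ₗ[ℝ] V m) := by
      rw [← LinearMap.ker_eq_bot, LinearMap.ker_eq_bot']
      intro v hv
      have h1 := h v
      have h2 : A v = 0 := hv
      rw [h2, norm_zero] at h1
      have h3 : ‖v‖ ^ 2 ≤ 0 := by nlinarith
      have h4 : ‖v‖ = 0 := by nlinarith [norm_nonneg v]
      exact norm_eq_zero.1 h4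
    let E : V m ≃ₗ[ℝ] V m := LinearEquiv.ofInjectiveEndo (A : V m →ₗ[ℝ] V m) hinj
    have hE : ∀ v, A (E.symm v) = v := fun v => E.apply_symm_apply v
    let Bi : V m →L[ℝ] V m := LinearMap.toContinuousLinearMap (E.symm : V m →ₗ[ℝ] V m)
    have hB : ∀ v, Bi v = E.symm v := fun v => rfl
    have h1 : |Bi.det| ≤ (Real.sqrt l)⁻¹ ^ m := by
      apply det_bd Bi _ (by positivity)
      intro v
      have h2 := h (E.symm v)
      rw [hE] at h2
      rw [hB]
      apply (pow_le_pow_iff_left₀ (norm_nonneg _) (by positivity) two_ne_zero).1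
      rw [mul_pow, inv_pow, Real.sq_sqrt hl.le]
      rw [← div_eq_inv_mul, le_div_iff₀ hl]
      linarith
    have h3 : A.det * Bi.det = 1 := by
      rw [← det_comp']
      have : A.comp Bi = ContinuousLinearMap.id ℝ (V m) := by
        ext1 v
        exact hE v
      rw [this]
      show LinearMap.det (LinearMap.id : V m →ₗ[ℝ] V m) = 1
      exact LinearMap.det_id
    have h4 : |A.det| * |Bi.det| = 1 := by rw [← abs_mul, h3, abs_one]
    have hs : 0 < Real.sqrt l := Real.sqrt_pos.2 hl
    have h5 : |A.det| * |Bi.det| ≤ |A.det| * (Real.sqrt l)⁻¹ ^ m :=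
      mul_le_mul_of_nonneg_left h1 (abs_nonneg _)
    rw [h4, inv_pow, ← div_eq_mul_inv, le_div_iff₀ (by positivity), one_mul] at h5
    exact h5

end Pool.Agent.Helper71.RFn.DETn
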