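import Pool.Agent.Helper64.RFn.GoalsF

/-! MP_c98eff_gt, project RFn part F, packet JACn: the derivative of the developing map. -/

open MeasureTheory Set

open scoped RealInnerProductSpace

namespace Pool.Agent.Helper71.RFn.JACn

open Pool.Agent.Helper64.RFn

variable {m : ℕ}

/-- the adjoint as a real continuous linear map -/
noncomputable def adjC : (V m →L[ℝ] V m) →L[ℝ] (V m →L[ℝ] V m) :=
  LinearMap.mkContinuous
    { toFun := fun A => ContinuousLinearMap.adjoint A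
      map_add' := fun A A' => map_add _ A A'
      map_smul' := fun r A => by
        simp } 1 (fun A => by
          simp)

lemma adjC_apply (A : V m →L[ℝ] V m) : adjC A = ContinuousLinearMap.adjoint A := rfl

lemma norm_adjC (A : V m →L[ℝ] V m) : ‖adjC A‖ = ‖A‖ := by
  rw [adjC_apply]; simp

lemma adj_comp_self {P : V m →L[ℝ] V m} (h : ∀ a b, ⟪P a, P b⟫ = ⟪a, b⟫) (a : V m) :
    ContinuousLinearMap.adjoint P (P a) = a := by
  apply ext_inner_right ℝ
  intro b
  rw [ContinuousLinearMap.adjoint_inner_left, h]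

lemma self_comp_adj {P : V m →L[ℝ] V m} (h : ∀ a b, ⟪P a, P b⟫ = ⟪a, b⟫) (a : V m) :
    P (ContinuousLinearMap.adjoint P a) = a := by
  have h1 : ((ContinuousLinearMap.adjoint P : V m →L[ℝ] V m) : V m →ₗ[ℝ] V m) ∘ₗ
      (P : V m →ₗ[ℝ] V m) = LinearMap.id := by
    ext1 b
    exact adj_comp_self h b
  have h2 := (LinearMap.comp_eq_id_comm (f := ((ContinuousLinearMap.adjoint P : V m →L[ℝ] V m) : V m →ₗ[ℝ] V m))
    (g := (P : V m →ₗ[ℝ] V m))).1 h1
  exact LinearMap.congr_fun h2 a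

lemma norm_adj {P : V m →L[ℝ] V m} (h : ∀ a b, ⟪P a, P b⟫ = ⟪a, b⟫) (a : V m) :
    ‖ContinuousLinearMap.adjoint P a‖ = ‖a‖ := by
  have h1 : ‖ContinuousLinearMap.adjoint P a‖ ^ 2 = ‖a‖ ^ 2 := by
    rw [← real_inner_self_eq_norm_sq, ← real_inner_self_eq_norm_sq,
      ContinuousLinearMap.adjoint_inner_left, self_comp_adj h]
  exact (pow_left_inj₀ (norm_nonneg _) (norm_nonneg _) two_ne_zero).1 h1

lemma adj_skew {A : V m →L[ℝ] V m} (h : ∀ a b, ⟪A a, b⟫ = - ⟪a, A b⟫) (a : V m) :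
    ContinuousLinearMap.adjoint A a = - A a := by
  apply ext_inner_right ℝ
  intro b
  rw [ContinuousLinearMap.adjoint_inner_left, inner_neg_left, h, neg_neg]

lemma norm_Txx {T : V m → V m →L[ℝ] V m} {B : V m → V m →L[ℝ] (V m →L[ℝ] V m)} (hC : Cone T B)
    {x : V m} (hx : x ≠ 0) : ‖T x x‖ = ‖x‖ := by
  have h1 : ‖T x x‖ ^ 2 = ‖x‖ ^ 2 := by
    rw [← real_inner_self_eq_norm_sq, ← real_inner_self_eq_norm_sq, hC.radT x hx]
  exact (pow_left_inj₀ (norm_nonneg _) (norm_nonneg _) two_ne_zero).1 h1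

lemma hasFDerivAt_T {T : V m → V m →L[ℝ] V m} {B : V m → V m →L[ℝ] (V m →L[ℝ] V m)} (hC : Cone T B)
    {x : V m} (hx : x ≠ 0) : HasFDerivAt T (fderiv ℝ T x) x :=
  ((hC.smT.contDiffAt (isOpen_compl_singleton.mem_nhds hx)).differentiableAt (by simp)).hasFDerivAt

lemma fderiv_T_rad {T : V m → V m →L[ℝ] V m} {B : V m → V m →L[ℝ] (V m →L[ℝ] V m)} (hC : Cone T B)
    {x : V m} (hx : x ≠ 0) : fderiv ℝ T x x = 0 := by
  have h1 : HasDerivAt (fun r : ℝ => T (r • x)) (fderiv ℝ T x x) 1 := by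
    have h2 : HasDerivAt (fun r : ℝ => r • x) x 1 := by
      simpa using (hasDerivAt_id (1:ℝ)).smul_const x
    have h3 : HasFDerivAt T (fderiv ℝ T x) ((1:ℝ) • x) := by
      rw [one_smul]; exact hasFDerivAt_T hC hx
    exact h3.comp_hasDerivAt (1:ℝ) h2
  have h4 : HasDerivAt (fun r : ℝ => T (r • x)) 0 1 := by
    have h5 : (fun r : ℝ => T (r • x)) =ᶠ[nhds 1] fun _ => T x := by
      filter_upwards [lt_mem_nhds (show (0:ℝ) < 1 by norm_num)] with r hr
      exact hC.homT r hr x hx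
    exact (hasDerivAt_const (1:ℝ) (T x)).congr_of_eventuallyEq h5
  exact h1.unique h4

/-- the torsion identity in the radial direction -/
lemma tors_rad {T : V m → V m →L[ℝ] V m} {B : V m → V m →L[ℝ] (V m →L[ℝ] V m)} (hC : Cone T B)
    {x : V m} (hx : x ≠ 0) (v : V m) : fderiv ℝ T x v x + B x v (T x x) = 0 := by
  have h := hC.tors x hx v x
  rw [fderiv_T_rad hC hx, hC.radB x hx] at h
  simpa using h

/-- the radial projection -/
lemma hasFDerivAt_X {x : V m} (hx : x ≠ 0) :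
    HasFDerivAt (fun y : V m => ‖y‖⁻¹ • y)
      (‖x‖⁻¹ • ContinuousLinearMap.id ℝ (V m) +
        (-(‖x‖ ^ 2)⁻¹ • (‖x‖⁻¹ • innerSL ℝ x)).smulRight x) x := by
  have hn : ‖x‖ ≠ 0 := norm_ne_zero_iff.2 hx
  have h1 : HasFDerivAt (fun y : V m => ‖y‖) (‖x‖⁻¹ • innerSL ℝ x) x := by
    have hd : DifferentiableAt ℝ (fun y : V m => ‖y‖) x :=
      (contDiffAt_norm ℝ hx (n := 1)).differentiableAt (by simp)
    have h2 := (hd.hasFDerivAt.pow 2).fderiv
    have h3 := (hasStrictFDerivAt_norm_sq x).hasFDerivAt.fderiv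
    rw [h2] at h3
    have h4 : fderiv ℝ (fun y : V m => ‖y‖) x = ‖x‖⁻¹ • innerSL ℝ x := by
      ext1 v
      have h5 := congrArg (fun A : V m →L[ℝ] ℝ => A v) h3
      simp only [_root_.smul_apply, innerSL_apply_apply, smul_eq_mul, nsmul_eq_mul] at h5 ⊢
      norm_num at h5
      field_simp
      linarith
    rw [← h4]; exact hd.hasFDerivAt
  have h6 : HasFDerivAt (fun y : V m => ‖y‖⁻¹) (-(‖x‖ ^ 2)⁻¹ • (‖x‖⁻¹ • innerSL ℝ x)) x :=
    (hasDerivAt_inv hn).comp_hasFDerivAt x h1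
  exact h6.smul (hasFDerivAt_id x)

theorem jacn : Pool.Agent.Helper64.RFn.JACn := by
  intro m e c ε T B P hC hD
  refine ⟨fun x hx => ⟨?_, fun r hr => ?_⟩, fun x hx hxe => ⟨?_, fun v => ?_⟩⟩
  · unfold FF
    rw [norm_adj (hD.orth _), norm_Txx hC hx]
  · unfold FF
    have h1 : ‖r • x‖⁻¹ • r • x = ‖x‖⁻¹ • x := by
      rw [norm_smul, Real.norm_of_nonneg hr.le, smul_smul, mul_inv, mul_right_comm,
        inv_mul_cancel₀ hr.ne', one_mul]
    rw [h1, hC.homT r hr x hx, map_smul, map_smul]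
  · have h1 : ContDiffAt ℝ (⊤ : ℕ∞) (fun y : V m => ‖y‖⁻¹ • y) x :=
      ((contDiffAt_norm ℝ hx).inv (norm_ne_zero_iff.2 hx)).smul contDiffAt_id
    have h2 : ContDiffAt ℝ (⊤ : ℕ∞) (fun y : V m => adjC (P (‖y‖⁻¹ • y))) x :=
      adjC.contDiff.contDiffAt.comp x (hD.smooth.contDiffAt.comp x h1)
    have h3 : ContDiffAt ℝ (⊤ : ℕ∞) T x := hC.smT.contDiffAt (isOpen_compl_singleton.mem_nhds hx)
    exact h2.clm_apply (h3.clm_apply contDiffAt_id)
  · have hn : 0 < ‖x‖ := norm_pos_iff.2 hx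
    set X : V m := ‖x‖⁻¹ • x with hX
    have hXn : ‖X‖ = 1 := by
      rw [hX, norm_smul, norm_inv, norm_norm, inv_mul_cancel₀ hn.ne']
    have hX0 : X ≠ 0 := by
      intro h; rw [h, norm_zero] at hXn; exact zero_ne_one hXn
    have hxX : x = ‖x‖ • X := by
      rw [hX, smul_smul, mul_inv_cancel₀ hn.ne', one_smul]
    have hXR : X ∈ Rg e c := by
      refine ⟨by rw [hXn]; norm_num, by rw [hXn]; norm_num, ?_⟩
      rw [hXn, mul_one, hX, real_inner_smul_left]
      rw [← div_eq_inv_mul, lt_div_iff₀ hn]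
      linarith
    have hBx : B x = ‖x‖⁻¹ • B X := by
      conv_lhs => rw [hxX]
      exact hC.homB ‖x‖ hn X hX0
    -- the direction
    set w : V m := ‖x‖⁻¹ • (v - ⟪X, v⟫ • X) with hw
    have hwn : ‖w‖ ≤ ‖x‖⁻¹ * ‖v‖ := by
      rw [hw, norm_smul, norm_inv, norm_norm]
      apply mul_le_mul_of_nonneg_left _ (by positivity)
      have h1 : ‖v - ⟪X, v⟫ • X‖ ^ 2 ≤ ‖v‖ ^ 2 := by
        rw [norm_sub_sq_real, inner_smul_right, norm_smul, hXn, mul_one, real_inner_comm X v,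
          Real.norm_eq_abs, sq_abs]
        nlinarith [sq_nonneg ⟪X, v⟫]
      exact (pow_le_pow_iff_left₀ (norm_nonneg _) (norm_nonneg _) two_ne_zero).1 h1
    have hBw : B X w = B x v := by
      rw [hw, hBx]
      have h1 : ⟪X, v⟫ • B X X = 0 := by
        rw [hC.radB X hX0]
        exact smul_zero (M := ℝ) (A := V m →L[ℝ] V m) ⟪X, v⟫
      rw [map_smul, map_sub, map_smul, h1, sub_zero]
      rfl
    have hdX := hasFDerivAt_X hx
    have hdP : HasFDerivAt P (fderiv ℝ P X) X :=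
      (hD.smooth.contDiffAt.differentiableAt (by simp)).hasFDerivAt
    have hQ : HasFDerivAt (fun y : V m => adjC (P (‖y‖⁻¹ • y))) _ x :=
      adjC.hasFDerivAt.comp x (HasFDerivAt.comp x hdP hdX)
    have hU : HasFDerivAt (fun y : V m => T y y) _ x :=
      (hasFDerivAt_T hC hx).clm_apply (hasFDerivAt_id x)
    have hF := (hQ.clm_apply hU).fderiv
    have hF2 : fderiv ℝ (FF T P) x = _ := hF
    have hw2 : (‖x‖⁻¹ • ContinuousLinearMap.id ℝ (V m) +
        (-(‖x‖ ^ 2)⁻¹ • (‖x‖⁻¹ • innerSL ℝ x)).smulRight x) v = w := by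
      simp only [_root_.add_apply, _root_.smul_apply, ContinuousLinearMap.smulRight_apply,
        ContinuousLinearMap.id_apply, innerSL_apply_apply, smul_eq_mul]
      rw [hw, hX, real_inner_smul_left, smul_sub, smul_smul, smul_smul, sub_eq_add_neg, ← neg_smul]
      congr 2
      field_simp
    have hval : fderiv ℝ (FF T P) x v =
        adjC (P X) (T x v + fderiv ℝ T x v x) + adjC (fderiv ℝ P X w) (T x x) := by
      rw [hF2, ← hw2]
      rfl
    set R : V m →L[ℝ] V m := fderiv ℝ P X w + (B X w).comp (P X) with hR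
    have hRn : ‖R‖ ≤ ε * ‖w‖ := hD.der X hXR w
    have hPw : fderiv ℝ P X w = R - (B x v).comp (P X) := by
      rw [hR, hBw, add_sub_cancel_right]
    have hcomp : adjC ((B x v).comp (P X)) (T x x) = - adjC (P X) (B x v (T x x)) := by
      rw [adjC_apply, adjC_apply, ContinuousLinearMap.adjoint_comp, ContinuousLinearMap.comp_apply,
        adj_skew (hC.skew x hx v), map_neg]
    have hfin : fderiv ℝ (FF T P) x v - ContinuousLinearMap.adjoint (P (‖x‖⁻¹ • x)) (T x v) =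
        adjC R (T x x) := by
      rw [hval, hPw, map_sub, _root_.sub_apply, hcomp, ← hX, ← adjC_apply (P X), map_add]
      have h1 : adjC (P X) (fderiv ℝ T x v x) + adjC (P X) (B x v (T x x)) = 0 := by
        rw [← map_add, tors_rad hC hx, map_zero]
      calc _ = adjC R (T x x) + (adjC (P X) (fderiv ℝ T x v x) + adjC (P X) (B x v (T x x))) := by
            abel
        _ = adjC R (T x x) := by rw [h1, add_zero]
    rw [hfin]
    have hε : ‖adjC R (T x x)‖ ≤ ‖R‖ * ‖x‖ := by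
      have := (adjC R).le_opNorm (T x x)
      rwa [norm_adjC, norm_Txx hC hx] at this
    refine hε.trans ?_
    have hRv : ‖R‖ * ‖x‖ ≤ ε * ‖w‖ * ‖x‖ := mul_le_mul_of_nonneg_right hRn hn.le
    by_cases hε0 : 0 ≤ ε
    · refine hRv.trans ?_
      calc ε * ‖w‖ * ‖x‖ ≤ ε * (‖x‖⁻¹ * ‖v‖) * ‖x‖ := by gcongr
        _ = ε * ‖v‖ := by field_simp
    · -- negative ε is impossible unless all directions vanish
      push Not at hε0
      have h0 : ∀ u : V m, u = 0 := by
        intro u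
        by_contra hu
        have h1 := hD.der X hXR u
        have h2 : ε * ‖u‖ < 0 := mul_neg_of_neg_of_pos hε0 (norm_pos_iff.2 hu)
        linarith [norm_nonneg (fderiv ℝ P X u + (B X u).comp (P X))]
      exact absurd (h0 x) hx

end Pool.Agent.Helper71.RFn.JACn
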