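import Pool.Agent.Helper47.RFn.Alg

/-! Project RFn, packet EV. -/

namespace Pool.Agent.Helper71.RFn

open Finset Pool.Agent.Helper47.RFn

lemma ric_symm {n : ℕ} {S : T4 n} (h : IsCurv S) (a b : Fin n) : Ric S a b = Ric S b a := by
  unfold Ric
  exact sum_congr rfl fun e _ => h.pair a e b e

lemma ric0_apply {n : ℕ} (S : T4 n) (a b : Fin n) :
    Ric0 S a b = Ric S a b - lam S * (if a = b then 1 else 0) := by
  unfold Ric0
  rw [Matrix.sub_apply, Matrix.smul_apply, Matrix.one_apply, smul_eq_mul]

lemma rq_ric0 {n : ℕ} (S : T4 n) (v : Fin n → ℝ) :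
    rq (Ric0 S) v = rq (Ric S) v - lam S * nrm v := by
  unfold rq nrm
  have : ∀ i j, Ric0 S i j * v i * v j
      = Ric S i j * v i * v j - lam S * ((if i = j then 1 else 0) * v i * v j) := by
    intro i j
    rw [ric0_apply]; ring
  simp only [this, sum_sub_distrib, ← mul_sum]
  congr 2
  refine sum_congr rfl fun i _ => ?_
  simp [sum_ite_eq, pow_two]

lemma ric0_diag {n : ℕ} (hn : 0 < n) (S : T4 n) : ∑ a, Ric0 S a a = 0 := by
  simp only [ric0_apply]
  simp only [if_true, mul_one, sum_sub_distrib, sum_const, card_univ, Fintype.card_fin,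
    nsmul_eq_mul]
  unfold lam
  have : (n : ℝ) ≠ 0 := by exact_mod_cast hn.ne'
  field_simp
  ring

/-- two variable quadratic form -/
lemma rq_two {n : ℕ} (A : M2 n) (hA : ∀ a b, A a b = A b a) (a b : Fin n) (hab : a ≠ b) (s t : ℝ) :
    rq A (fun i => (if i = a then s else 0) + (if i = b then t else 0))
      = A a a * s ^ 2 + 2 * A a b * (s * t) + A b b * t ^ 2 := by
  unfold rq
  have e : ∀ i j : Fin n, A i j * ((if i = a then s else 0) + (if i = b then t else 0))
      * ((if j = a then s else 0) + (if j = b then t else 0))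
      = (if i = a then (if j = a then A i j * s * s else 0) else 0)
      + (if i = a then (if j = b then A i j * s * t else 0) else 0)
      + (if i = b then (if j = a then A i j * t * s else 0) else 0)
      + (if i = b then (if j = b then A i j * t * t else 0) else 0) := by
    intro i j
    split_ifs <;> simp_all
  simp only [e, sum_add_distrib]
  have s1 : ∀ (x y : Fin n) (f : Fin n → Fin n → ℝ),
      ∑ i, ∑ j, (if i = x then (if j = y then f i j else 0) else 0) = f x y := by
    intro x y f
    rw [sum_eq_single x (fun i _ hi => by simp [hi]) (by simp)]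
    rw [sum_eq_single y (fun j _ hj => by simp [hj]) (by simp)]
    simp
  rw [s1 a a (fun i j => A i j * s * s), s1 a b (fun i j => A i j * s * t),
    s1 b a (fun i j => A i j * t * s), s1 b b (fun i j => A i j * t * t), hA b a]
  ring

lemma rq_one {n : ℕ} (A : M2 n) (a : Fin n) :
    rq A (fun i => if i = a then 1 else 0) = A a a := by
  unfold rq
  rw [sum_eq_single a (fun i _ hi => by simp [hi]) (by simp)]
  rw [sum_eq_single a (fun j _ hj => by simp [hj]) (by simp)]
  simp

lemma psd_entry {n : ℕ} (A : M2 n) (hA : ∀ a b, A a b = A b a) (h : ∀ v, 0 ≤ rq A v)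
    (a b : Fin n) : A a b ^ 2 ≤ A a a * A b b := by
  by_cases hab : a = b
  · subst hab; exact (pow_two _).le
  · have hd : ∀ a, 0 ≤ A a a := fun a => by
      have := h (fun i => if i = a then 1 else 0)
      rwa [rq_one] at this
    have hq : ∀ s t : ℝ, 0 ≤ A a a * s ^ 2 + 2 * A a b * (s * t) + A b b * t ^ 2 := by
      intro s t
      rw [← rq_two A hA a b hab]
      exact h _
    rcases (hd b).eq_or_lt with h0 | h0
    · -- `A b b = 0`
      have h1 := hq (-(A a b)) (A a a / 2 + 1)
      have h2 := hd a
      rw [← h0] at h1 ⊢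
      nlinarith [sq_nonneg (A a b)]
    · have h1 := hq (A b b) (-(A a b))
      have h2 : 0 ≤ A b b * (A a a * A b b - A a b ^ 2) := by nlinarith
      have := nonneg_of_mul_nonneg_right h2 h0
      linarith

theorem goal_EV : Goal_EV := by
  intro n hn p S hS hp hp1 hl hR
  have hn0 : 0 < n := by omega
  have hnr : (0 : ℝ) < n := by exact_mod_cast hn0
  set η : ℝ := (1 - p) * lam S with hη
  have hη0 : 0 ≤ η := mul_nonneg (by linarith) hl
  have hq : ∀ v, -η * nrm v ≤ rq (Ric0 S) v := by
    intro v
    have := hR v
    rw [rq_ric0]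
    nlinarith
  constructor
  · -- the bound of `sig`
    set M : M2 n := fun a b => Ric0 S a b + η * (if a = b then 1 else 0) with hM
    have hMs : ∀ a b, M a b = M b a := by
      intro a b
      show Ric0 S a b + η * (if a = b then 1 else 0) = Ric0 S b a + η * (if b = a then 1 else 0)
      rw [ric0_apply, ric0_apply, ric_symm hS a b]
      by_cases hab : a = b
      · subst hab; simp
      · have hba : ¬ b = a := fun h => hab h.symm
        simp [hab, hba]
    have hMq : ∀ v, 0 ≤ rq M v := by
      intro v
      have e : rq M v = rq (Ric0 S) v + η * nrm v := by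
        unfold rq nrm
        have : ∀ i j, M i j * v i * v j
            = Ric0 S i j * v i * v j + η * ((if i = j then 1 else 0) * v i * v j) := by
          intro i j
          show (Ric0 S i j + η * (if i = j then 1 else 0)) * v i * v j = _
          ring
        simp only [this, sum_add_distrib, ← mul_sum]
        congr 2
        refine sum_congr rfl fun i _ => ?_
        simp [sum_ite_eq, pow_two]
      rw [e]
      have := hq v
      linarith
    have htr : ∑ a, M a a = n * η := by
      show ∑ a, (Ric0 S a a + η * (if a = a then 1 else 0)) = n * η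
      rw [sum_add_distrib, ric0_diag hn0]
      simp
    have hsum : ∑ a, ∑ b, M a b ^ 2 ≤ (n * η) ^ 2 := by
      calc ∑ a, ∑ b, M a b ^ 2 ≤ ∑ a, ∑ b, M a a * M b b :=
            sum_le_sum fun a _ => sum_le_sum fun b _ => psd_entry M hMs hMq a b
        _ = (∑ a, M a a) * (∑ b, M b b) := by
            rw [sum_mul_sum]
        _ = (n * η) ^ 2 := by rw [htr]; ring
    have hexp : ∑ a, ∑ b, M a b ^ 2 = (∑ a, ∑ b, Ric0 S a b ^ 2) + n * η ^ 2 := by
      have : ∀ a b, M a b ^ 2 = Ric0 S a b ^ 2
          + 2 * η * (Ric0 S a b * (if a = b then 1 else 0)) + η ^ 2 * (if a = b then 1 else 0) := by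
        intro a b
        show (Ric0 S a b + η * (if a = b then 1 else 0)) ^ 2 = _
        split_ifs <;> ring
      simp only [this, sum_add_distrib, ← mul_sum]
      have e2' : ∑ a, ∑ b, Ric0 S a b * (if a = b then (1 : ℝ) else 0) = ∑ a, Ric0 S a a := by
        refine sum_congr rfl fun a _ => ?_
        simp
      have e2 : ∑ a, ∑ b, Ric0 S a b * (if a = b then (1 : ℝ) else 0) = 0 := by
        rw [e2', ric0_diag hn0 S]
      have e3 : ∑ a : Fin n, ∑ b : Fin n, (if a = b then (1 : ℝ) else 0) = n := by
        simp
      rw [e2, e3]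
      ring
    unfold sig
    rw [div_le_iff₀ hnr]
    have : (∑ a, ∑ b, Ric0 S a b ^ 2) ≤ (n * η) ^ 2 - n * η ^ 2 := by linarith
    calc (∑ a, ∑ b, Ric0 S a b ^ 2) ≤ (n * η) ^ 2 - n * η ^ 2 := this
      _ = (n - 1) * (1 - p) ^ 2 * lam S ^ 2 * n := by rw [hη]; ring
  · intro u x hu hx
    have h1 := hq u
    rw [hu] at h1
    have h2 : rq (Ric0 S) u = x := by
      have : rq (Ric0 S) u = ∑ i, u i * ((Ric0 S).mulVec u) i := by
        unfold rq Matrix.mulVec dotProduct
        refine sum_congr rfl fun i _ => ?_
        rw [mul_sum]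
        refine sum_congr rfl fun j _ => ?_
        ring
      rw [this, hx]
      simp only [Pi.smul_apply, smul_eq_mul]
      have : ∑ i, u i * (x * u i) = x * nrm u := by
        unfold nrm
        rw [mul_sum]
        exact sum_congr rfl fun i _ => by ring
      rw [this, hu, mul_one]
    rw [h2] at h1
    linarith

end Pool.Agent.Helper71.RFn
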